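import Mathlib
import Pool.Agent.H262.FK4

/-!
# A `p`-Banach space which is its own Lipschitz free `p`-space
-/

namespace Pool.Agent.Results.MP_fdacb0_an.SelfFree

open Pool.Agent.H262.FreeP Pool.Agent.H262.FP Filter Topology Cardinal

/-! ### Definitions -/

/-- `(F, NF, δ)` is the Lipschitz free `p`-space over the `p`-metric space `(M, d)` with base point
`o` (real scalars): `(F, NF)` is a `p`-Banach space, `δ` is isometric, `δ o = 0`, the span of the
range of `δ` is dense, and every Lipschitz map `f` from `M` to a `p`-Banach space with `f o = 0`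
factors as `f = T ∘ δ` for a unique bounded linear map `T`, whose norm is at most every Lipschitz
constant of `f`. -/
structure IsFreeP (p : ℝ) (M : Type) (d : M → M → ℝ) (o : M) (F : Type) [AddCommGroup F]
    [Module ℝ F] (NF : F → ℝ) (δ : M → F) : Prop where
  pbanach : IsPBanach ℝ p F NF
  base : δ o = 0
  isometric : ∀ s t, NF (δ s - δ t) = d s t
  dense : ∀ z, ∀ ε > 0, ∃ w ∈ Submodule.span ℝ (Set.range δ), NF (z - w) < ε
  universal : ∀ (Y : Type) [AddCommGroup Y] [Module ℝ Y] (NY : Y → ℝ), IsPBanach ℝ p Y NY →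
    ∀ (f : M → Y) (L : ℝ), 0 ≤ L → f o = 0 → (∀ s t, NY (f s - f t) ≤ L * d s t) →
      ∃ T : F →ₗ[ℝ] Y, (∀ s, T (δ s) = f s) ∧ (∀ z, NY (T z) ≤ L * NF z) ∧
        ∀ T' : F →ₗ[ℝ] Y, (∃ C, ∀ z, NY (T' z) ≤ C * NF z) → (∀ s, T' (δ s) = f s) → T' = T

/-! ### The algebraic model -/

section model

variable {p : ℝ}

/-- pairs `(w, l)` with `|l| ^ p ≤ w` -/
def Pt (p : ℝ) : Type := {c : ℝ × ℝ // |c.2| ^ p ≤ c.1}

/-- the index set -/
def Idx (p : ℝ) : Type := Pt p × ℝ

/-- an index -/
def i1 (p : ℝ) : Idx p := ⟨⟨(1, 1), by simp⟩, 0⟩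

/-- the vector space -/
abbrev V (p : ℝ) : Type := Idx p →₀ ℝ

/-- the functional -/
noncomputable def ell : V p →ₗ[ℝ] ℝ := Finsupp.linearCombination ℝ fun i : Idx p => i.1.1.2

/-- the size -/
noncomputable def ss (v : V p) : ℝ := v.sum fun i a => |a| ^ p * i.1.1.1

theorem ell_single (i : Idx p) : ell (Finsupp.single i (1 : ℝ)) = i.1.1.2 := by
  rw [ell, Finsupp.linearCombination_single, one_smul]

theorem ss_single (hp : 0 < p) (i : Idx p) : ss (Finsupp.single i (1 : ℝ)) = i.1.1.1 := by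
  rw [ss, Finsupp.sum_single_index]
  · rw [abs_one, Real.one_rpow, one_mul]
  · rw [abs_zero, Real.zero_rpow hp.ne', zero_mul]

theorem isPFK_abs (hp : 0 < p) (hp1 : p ≤ 1) : IsPFK ℝ p (fun x : ℝ => |x| ^ p) where
  nonneg := fun x => Real.rpow_nonneg (abs_nonneg x) _
  add_le := fun x y => norm_add_rpow_le hp hp1 x y
  smul := fun t x => by
    rw [smul_eq_mul, abs_mul, Real.mul_rpow (abs_nonneg _) (abs_nonneg _), Real.norm_eq_abs]

/-- a linear map on `V` is controlled by its values on the basis -/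
theorem bound_sum {Y : Type} [AddCommGroup Y] [Module ℝ Y] {R : Y → ℝ} (hp : 0 < p)
    (hR : IsPFK ℝ p R) (T : V p →ₗ[ℝ] Y) (C : ℝ)
    (h : ∀ i : Idx p, R (T (Finsupp.single i 1)) ≤ C * i.1.1.1) (v : V p) :
    R (T v) ≤ C * ss v := by
  have h1 : T v = ∑ i ∈ v.support, v i • T (Finsupp.single i 1) := by
    conv_lhs => rw [← Finsupp.sum_single v, Finsupp.sum, map_sum]
    refine Finset.sum_congr rfl fun i _ => ?_
    rw [← map_smul, Finsupp.smul_single, smul_eq_mul, mul_one]
  rw [h1, ss, Finsupp.sum, Finset.mul_sum]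
  refine (hR.sum_le hp _ _).trans (Finset.sum_le_sum fun i _ => ?_)
  rw [hR.smul, Real.norm_eq_abs, mul_left_comm]
  exact mul_le_mul_of_nonneg_left (h i) (Real.rpow_nonneg (abs_nonneg _) _)

theorem ell_le (hp : 0 < p) (hp1 : p ≤ 1) (v : V p) : |ell v| ^ p ≤ ss v := by
  have := bound_sum hp (isPFK_abs hp hp1) ell 1 (fun i => by
    rw [ell_single, one_mul]
    exact i.1.2) v
  rwa [one_mul] at this

/-- the pair of a vector -/
noncomputable def cfg (hp : 0 < p) (hp1 : p ≤ 1) (v : V p) : Pt p :=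
  ⟨(ss v, ell v), ell_le hp hp1 v⟩

theorem cfg_single (hp : 0 < p) (hp1 : p ≤ 1) (i : Idx p) :
    cfg hp hp1 (Finsupp.single i (1 : ℝ)) = i.1 := by
  apply Subtype.ext
  change (ss _, ell _) = _
  rw [ss_single hp, ell_single]

theorem mk_idx_le : #(Idx p) ≤ 𝔠 := by
  have h1 : #(Pt p) ≤ 𝔠 := by
    refine (Cardinal.mk_subtype_le _).trans ?_
    rw [Cardinal.mk_prod, Cardinal.mk_real]
    simp
  have h2 : #(Idx p) = #(Pt p) * #ℝ := by
    unfold Idx
    rw [Cardinal.mk_prod]
    simp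
  rw [h2, Cardinal.mk_real]
  calc #(Pt p) * 𝔠 ≤ 𝔠 * 𝔠 := mul_le_mul_left h1 _
    _ = 𝔠 := by simp

theorem exists_beta (hp : 0 < p) (hp1 : p ≤ 1) :
    ∃ β : {v : V p // v ≠ 0} ≃ Idx p, ∀ v, (β v).1 = cfg hp hp1 v.1 := by
  have hne : Nonempty (Pt p) := ⟨⟨(0, 0), by
    change |(0 : ℝ)| ^ p ≤ 0
    rw [abs_zero, Real.zero_rpow hp.ne']⟩⟩
  have hinf : Infinite (Idx p) := by
    unfold Idx
    infer_instance
  have hV : #(V p) ≤ 𝔠 := by
    rw [Cardinal.mk_finsupp_of_infinite, Cardinal.mk_real]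
    exact max_le mk_idx_le le_rfl
  have key : ∀ c : Pt p, Nonempty ({v : {v : V p // v ≠ 0} // cfg hp hp1 v.1 = c} ≃ ℝ) := by
    intro c
    rw [← Cardinal.eq, Cardinal.mk_real]
    apply le_antisymm
    · exact ((Cardinal.mk_subtype_le _).trans (Cardinal.mk_subtype_le _)).trans hV
    · rw [← Cardinal.mk_real]
      refine Cardinal.mk_le_of_injective (f := fun t : ℝ =>
        (⟨⟨Finsupp.single ((c, t) : Idx p) (1 : ℝ), ?_⟩, cfg_single hp hp1 (c, t)⟩ :
          {v : {v : V p // v ≠ 0} // cfg hp hp1 v.1 = c})) ?_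
      · exact Finsupp.single_ne_zero.2 one_ne_zero
      · intro t t' h
        have h1 : Finsupp.single ((c, t) : Idx p) (1 : ℝ) = Finsupp.single ((c, t') : Idx p) 1 :=
          congrArg (fun z : {v : {v : V p // v ≠ 0} // cfg hp hp1 v.1 = c} => z.1.1) h
        have h2 := (Finsupp.single_left_inj (one_ne_zero : (1 : ℝ) ≠ 0)).1 h1
        exact congrArg Prod.snd h2
  let e := fun c => Classical.choice (key c)
  refine ⟨(Equiv.sigmaFiberEquiv fun v : {v : V p // v ≠ 0} => cfg hp hp1 v.1).symm.trans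
    ((Equiv.sigmaCongrRight e).trans (Equiv.sigmaEquivProd (Pt p) ℝ)), fun v => rfl⟩

variable (β : {v : V p // v ≠ 0} ≃ Idx p)

open Classical in
/-- the map `δ` on the model -/
noncomputable def dl (v : V p) : V p := if h : v = 0 then 0 else Finsupp.single (β ⟨v, h⟩) 1

theorem dl_zero : dl β 0 = 0 := by simp [dl]

theorem dl_symm (i : Idx p) : dl β (β.symm i).1 = Finsupp.single i 1 := by
  rw [dl, dif_neg (β.symm i).2]
  congr 1
  exact β.apply_symm_apply i

/-- the extension of a map -/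
noncomputable def ext {Y : Type} [AddCommGroup Y] [Module ℝ Y] (f : V p → Y) : V p →ₗ[ℝ] Y :=
  Finsupp.linearCombination ℝ fun i => f (β.symm i).1

theorem ext_dl {Y : Type} [AddCommGroup Y] [Module ℝ Y] {f : V p → Y} (hf : f 0 = 0) (v : V p) :
    ext β f (dl β v) = f v := by
  by_cases h : v = 0
  · rw [h, dl_zero, map_zero, hf]
  · rw [dl, dif_neg h, ext, Finsupp.linearCombination_single, one_smul, Equiv.symm_apply_apply]

/-- the family of admissible functionals -/
structure Fam (q : V p → ℝ) : Prop where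
  pfk : IsPFK ℝ p q
  le : ∀ v, q v ≤ ss v
  lip : ∀ x y, q (dl β x - dl β y) ≤ q (x - y)

/-- the largest one -/
noncomputable def QQ (v : V p) : ℝ := sSup {r | ∃ q, Fam β q ∧ r = q v}

variable {β}

theorem ell_dl (hp : 0 < p) (hp1 : p ≤ 1) (hβ : ∀ v, (β v).1 = cfg hp hp1 v.1) (v : V p) :
    ell (dl β v) = ell v := by
  by_cases h : v = 0
  · rw [h, dl_zero]
  · rw [dl, dif_neg h, ell_single, hβ]
    rfl

theorem fam_ell (hp : 0 < p) (hp1 : p ≤ 1) (hβ : ∀ v, (β v).1 = cfg hp hp1 v.1) :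
    Fam β (fun v => |ell v| ^ p) where
  pfk :=
    { nonneg := fun v => (isPFK_abs hp hp1).nonneg _
      add_le := fun v w => by
        rw [map_add]
        exact (isPFK_abs hp hp1).add_le _ _
      smul := fun t v => by
        rw [map_smul]
        exact (isPFK_abs hp hp1).smul _ _ }
  le := ell_le hp hp1
  lip := fun x y => by
    rw [map_sub, map_sub, ell_dl hp hp1 hβ, ell_dl hp hp1 hβ]

theorem le_QQ {q : V p → ℝ} (hq : Fam β q) (v : V p) : q v ≤ QQ β v :=
  le_csSup ⟨ss v, by rintro _ ⟨q, hq, rfl⟩; exact hq.le v⟩ ⟨q, hq, rfl⟩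

theorem QQ_le (hp : 0 < p) (hp1 : p ≤ 1) (hβ : ∀ v, (β v).1 = cfg hp hp1 v.1) {v : V p} {c : ℝ}
    (h : ∀ q, Fam β q → q v ≤ c) : QQ β v ≤ c := by
  refine csSup_le ⟨_, ⟨_, fam_ell hp hp1 hβ, rfl⟩⟩ ?_
  rintro _ ⟨q, hq, rfl⟩
  exact h q hq

theorem fam_QQ (hp : 0 < p) (hp1 : p ≤ 1) (hβ : ∀ v, (β v).1 = cfg hp hp1 v.1) :
    Fam β (QQ β) where
  pfk :=
    { nonneg := fun v => ((fam_ell hp hp1 hβ).pfk.nonneg v).trans (le_QQ (fam_ell hp hp1 hβ) v)
      add_le := fun v w => QQ_le hp hp1 hβ fun q hq =>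
        (hq.pfk.add_le v w).trans (add_le_add (le_QQ hq v) (le_QQ hq w))
      smul := fun t v => by
        have hle : ∀ (t : ℝ) (v : V p), QQ β (t • v) ≤ ‖t‖ ^ p * QQ β v := fun t v =>
          QQ_le hp hp1 hβ fun q hq => by
            rw [hq.pfk.smul]
            exact mul_le_mul_of_nonneg_left (le_QQ hq v) (Real.rpow_nonneg (norm_nonneg _) _)
        apply le_antisymm (hle t v)
        by_cases ht : t = 0
        · subst ht
          rw [norm_zero, Real.zero_rpow hp.ne', zero_mul]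
          exact ((fam_ell hp hp1 hβ).pfk.nonneg _).trans (le_QQ (fam_ell hp hp1 hβ) _)
        · have h1 := hle t⁻¹ (t • v)
          rw [smul_smul, inv_mul_cancel₀ ht, one_smul, norm_inv,
            Real.inv_rpow (norm_nonneg _)] at h1
          have h2 : 0 < ‖t‖ ^ p := Real.rpow_pos_of_pos (norm_pos_iff.2 ht) _
          rwa [inv_mul_eq_div, le_div_iff₀ h2, mul_comm] at h1 }
  le := fun v => QQ_le hp hp1 hβ fun q hq => hq.le v
  lip := fun x y => QQ_le hp hp1 hβ fun q hq => (hq.lip x y).trans (le_QQ hq _)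

/-- the extension property of the model -/
theorem key (hp : 0 < p) (hp1 : p ≤ 1) (hβ : ∀ v, (β v).1 = cfg hp hp1 v.1)
    {Y : Type} [AddCommGroup Y] [Module ℝ Y] {R : Y → ℝ} (hR : IsPFK ℝ p R)
    (T : V p →ₗ[ℝ] Y) {C : ℝ} (hC : 0 ≤ C)
    (h : ∀ x y, R (T (dl β x) - T (dl β y)) ≤ C * QQ β (x - y)) (v : V p) :
    R (T v) ≤ C * QQ β v := by
  have hQ := fam_QQ hp hp1 hβ
  have main : ∀ C' : ℝ, 0 < C' → C ≤ C' → R (T v) ≤ C' * QQ β v := by
    intro C' hC' hCC
    have hfam : Fam β (fun v => max (QQ β v) (R (T v) / C')) := by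
      refine ⟨⟨fun v => ?_, fun v w => ?_, fun t v => ?_⟩, fun v => ?_, fun x y => ?_⟩
      · exact (hQ.pfk.nonneg v).trans (le_max_left _ _)
      · refine max_le ?_ ?_
        · exact (hQ.pfk.add_le v w).trans (add_le_add (le_max_left _ _) (le_max_left _ _))
        · rw [map_add]
          calc R (T v + T w) / C' ≤ (R (T v) + R (T w)) / C' := by
                gcongr
                exact hR.add_le _ _
            _ = R (T v) / C' + R (T w) / C' := add_div _ _ _
            _ ≤ _ := add_le_add (le_max_right _ _) (le_max_right _ _)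
      · rw [hQ.pfk.smul, map_smul, hR.smul, mul_div_assoc,
          mul_max_of_nonneg _ _ (Real.rpow_nonneg (norm_nonneg _) _)]
      · refine max_le (hQ.le v) ?_
        rw [div_le_iff₀ hC', mul_comm]
        refine bound_sum hp hR T C' (fun i => ?_) v
        have h1 := h (β.symm i).1 0
        rw [dl_zero, map_zero, sub_zero, sub_zero, dl_symm] at h1
        refine h1.trans ?_
        have h2 : QQ β (β.symm i).1 ≤ i.1.1.1 := by
          refine (hQ.le _).trans (le_of_eq ?_)
          have h3 := hβ (β.symm i)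
          rw [Equiv.apply_symm_apply] at h3
          rw [h3]
          rfl
        calc C * QQ β (β.symm i).1 ≤ C' * QQ β (β.symm i).1 :=
              mul_le_mul_of_nonneg_right hCC (hQ.pfk.nonneg _)
          _ ≤ C' * i.1.1.1 := mul_le_mul_of_nonneg_left h2 hC'.le
      · refine max_le ?_ ?_
        · exact (hQ.lip x y).trans (le_max_left _ _)
        · refine le_trans ?_ (le_max_left _ _)
          rw [div_le_iff₀ hC', map_sub, mul_comm]
          exact (h x y).trans (mul_le_mul_of_nonneg_right hCC (hQ.pfk.nonneg _))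
    have h4 := (le_max_right _ _).trans (le_QQ hfam v)
    rwa [div_le_iff₀ hC', mul_comm] at h4
  refine le_of_forall_pos_le_add fun ε hε => ?_
  have h5 := main (C + ε / (QQ β v + 1)) (by
    have := hQ.pfk.nonneg v
    positivity) (by
    have := hQ.pfk.nonneg v
    have : 0 < ε / (QQ β v + 1) := by positivity
    linarith)
  refine h5.trans ?_
  rw [add_mul]
  have h6 : ε / (QQ β v + 1) * QQ β v ≤ ε := by
    have h7 := hQ.pfk.nonneg v
    rw [div_mul_eq_mul_div, div_le_iff₀ (by linarith)]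
    nlinarith
  linarith

end model

/-! ### The completion -/

section completion

variable {p : ℝ}

theorem isPFK_rpow' {F : Type} [AddCommGroup F] [Module ℝ F] {N : F → ℝ}
    (hF : IsPBanach ℝ p F N) : IsPFK ℝ p (fun z => N z ^ p) where
  nonneg := fun v => Real.rpow_nonneg (hF.nonneg v) _
  add_le := hF.add_le
  smul := fun t v => by rw [hF.smul, Real.mul_rpow (norm_nonneg _) (hF.nonneg v)]

/-- comparison of norms through `p`-th powers -/
theorem le_of_rpow {F F' : Type} [AddCommGroup F] [Module ℝ F] {N : F → ℝ}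
    [AddCommGroup F'] [Module ℝ F'] {N' : F' → ℝ} (hp : 0 < p)
    (hF : IsPBanach ℝ p F N) (hF' : IsPBanach ℝ p F' N') {x : F} {y : F'} {L : ℝ} (hL : 0 ≤ L)
    (h : N x ^ p ≤ L ^ p * N' y ^ p) : N x ≤ L * N' y := by
  rw [← Real.mul_rpow hL (hF'.nonneg y)] at h
  exact (Real.rpow_le_rpow_iff (hF.nonneg x) (mul_nonneg hL (hF'.nonneg y)) hp).1 h

theorem main (hp : 0 < p) (hp1 : p ≤ 1) :
    ∃ (X : Type) (_ : AddCommGroup X) (_ : Module ℝ X) (N : X → ℝ) (δ : X → X),
      Nontrivial X ∧ IsFreeP p X (fun x y => N (x - y)) 0 X N δ := by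
  obtain ⟨β, hβ⟩ := exists_beta hp hp1
  have hQ := fam_QQ hp hp1 hβ
  obtain ⟨G, _, _, NG, j, hG, hj, hd, hext⟩ := exists_completion hp hQ.pfk
  set P : G → ℝ := fun z => NG z ^ p with hP
  have hPF : IsPFK ℝ p P := isPFK_rpow' hG
  have hPj : ∀ v, P (j v) = QQ β v := hj
  have hP0 : ∀ z, P z = 0 ↔ z = 0 := by
    intro z
    change NG z ^ p = 0 ↔ _
    rw [Real.rpow_eq_zero (hG.nonneg z) hp.ne', hG.eq_zero_iff]
  have hdP : ∀ z, ∀ ε > 0, ∃ v, P (z - j v) < ε := by
    intro z ε hε
    obtain ⟨v, hv⟩ := hd z (ε ^ (1 / p)) (Real.rpow_pos_of_pos hε _)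
    refine ⟨v, ?_⟩
    have := Real.rpow_lt_rpow (hG.nonneg _) hv hp
    rwa [rpow_rpow_inv' hp hε.le] at this
  -- distances in the model
  have hjj : ∀ v w, P (j v - j w) = QQ β (v - w) := fun v w => by rw [← map_sub, hPj]
  -- the extension of `δ`
  have hδ : ∀ z : G, ∃ z' : G, ∀ v, P (z' - j (dl β v)) ≤ P (z - j v) := by
    intro z
    choose v hv using fun n : ℕ => hdP z (1 / (n + 1)) (by positivity)
    have hCau : ∀ m n, P (j (dl β (v m)) - j (dl β (v n))) ≤ 1 / (m + 1) + 1 / (n + 1) := by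
      intro m n
      rw [hjj]
      refine (hQ.lip _ _).trans ?_
      rw [← hjj]
      have : j (v m) - j (v n) = (z - j (v n)) - (z - j (v m)) := by abel
      rw [this]
      refine (hPF.sub_le _ _).trans ?_
      have := hv m
      have := hv n
      linarith
    obtain ⟨z', hz'⟩ := hG.complete (fun n => j (dl β (v n))) (by
      intro ε hε
      obtain ⟨K, hK⟩ := exists_nat_one_div_lt (by positivity : 0 < ε ^ p / 2)
      refine ⟨K, fun m hm n hn => ?_⟩
      have h1 := hCau m n
      have h2 : (1 : ℝ) / (m + 1) ≤ 1 / (K + 1) := by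
        apply one_div_le_one_div_of_le (by positivity)
        have : (K : ℝ) ≤ m := by exact_mod_cast hm
        linarith
      have h3 : (1 : ℝ) / (n + 1) ≤ 1 / (K + 1) := by
        apply one_div_le_one_div_of_le (by positivity)
        have : (K : ℝ) ≤ n := by exact_mod_cast hn
        linarith
      have h4 : NG (j (dl β (v m)) - j (dl β (v n))) ^ p < ε ^ p := by
        change P _ < _
        linarith
      exact (Real.rpow_lt_rpow_iff (hG.nonneg _) hε.le hp).1 h4)
    have hz'P : Tendsto (fun n => P (j (dl β (v n)) - z')) atTop (𝓝 0) := by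
      have := hz'.rpow_const (p := p) (Or.inr hp.le)
      rwa [Real.zero_rpow hp.ne'] at this
    have hvP : Tendsto (fun n => P (z - j (v n))) atTop (𝓝 0) :=
      squeeze_zero (fun n => hPF.nonneg _) (fun n => (hv n).le)
        tendsto_one_div_add_atTop_nhds_zero_nat
    refine ⟨z', fun w => ?_⟩
    have h5 : Tendsto (fun n => P (j (dl β (v n)) - z') + (P (z - j (v n)) + P (z - j w))) atTop
        (𝓝 (0 + (0 + P (z - j w)))) := hz'P.add (hvP.add tendsto_const_nhds)
    rw [zero_add, zero_add] at h5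
    refine ge_of_tendsto' h5 fun n => ?_
    have h6 : z' - j (dl β w) = (j (dl β (v n)) - j (dl β w)) - (j (dl β (v n)) - z') := by abel
    rw [h6]
    refine (hPF.sub_le _ _).trans ?_
    have h7 : P (j (dl β (v n)) - j (dl β w)) ≤ P (z - j (v n)) + P (z - j w) := by
      rw [hjj]
      refine (hQ.lip _ _).trans ?_
      rw [← hjj]
      have : j (v n) - j w = (z - j w) - (z - j (v n)) := by abel
      rw [this]
      refine (hPF.sub_le _ _).trans ?_
      linarith
    linarith
  choose δ hδ using hδ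
  have hδj : ∀ v, δ (j v) = j (dl β v) := by
    intro v
    rw [← sub_eq_zero, ← hP0]
    have := hδ (j v) v
    rw [sub_self, hPF.zero hp] at this
    exact le_antisymm this (hPF.nonneg _)
  have hup : ∀ z z', P (δ z - δ z') ≤ P (z - z') := by
    intro z z'
    refine le_of_forall_pos_le_add fun ε hε => ?_
    obtain ⟨v, hv⟩ := hdP z' (ε / 2) (by positivity)
    have h1 : δ z - δ z' = (δ z - j (dl β v)) - (δ z' - j (dl β v)) := by abel
    rw [h1]
    refine (hPF.sub_le _ _).trans ?_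
    have h2 := hδ z v
    have h3 := hδ z' v
    have h4 : P (z - j v) ≤ P (z - z') + P (z' - j v) := by
      have : z - j v = (z - z') + (z' - j v) := by abel
      rw [this]
      exact hPF.add_le _ _
    linarith
  have hδ0 : δ 0 = 0 := by
    have := hδj 0
    rwa [map_zero, dl_zero, map_zero] at this
  -- general extensions
  have hT : ∀ (Y : Type) [AddCommGroup Y] [Module ℝ Y] (NY : Y → ℝ), IsPBanach ℝ p Y NY →
      ∀ (f : G → Y) (L : ℝ), 0 ≤ L → f 0 = 0 → (∀ s t, NY (f s - f t) ≤ L * NG (s - t)) →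
        ∃ T : G →ₗ[ℝ] Y, (∀ s, T (δ s) = f s) ∧ (∀ z, NY (T z) ≤ L * NG z) := by
    intro Y _ _ NY hY f L hL hf0 hf
    have hYF : IsPFK ℝ p (fun z => NY z ^ p) := isPFK_rpow' hY
    have hfP : ∀ s t, NY (f s - f t) ^ p ≤ L ^ p * P (s - t) := by
      intro s t
      rw [hP]
      simp only
      rw [← Real.mul_rpow hL (hG.nonneg _)]
      exact Real.rpow_le_rpow (hY.nonneg _) (hf s t) hp.le
    have hT0 : ∀ v, NY (ext β (fun v => f (j v)) v) ^ p ≤ L ^ p * QQ β v := by
      intro v
      refine key hp hp1 hβ hYF (ext β (fun v => f (j v))) (Real.rpow_nonneg hL _)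
        (fun x y => ?_) v
      have e : ∀ x, ext β (fun v => f (j v)) (dl β x) = f (j x) :=
        ext_dl β (by rw [map_zero, hf0])
      rw [e, e, ← hjj]
      exact hfP _ _
    obtain ⟨T, hT1, hT2⟩ := hext Y NY hY (ext β (fun v => f (j v))) L hL (fun v => by
      refine le_of_rpow hp hY hG hL ?_
      change _ ≤ L ^ p * P (j v)
      rw [hPj]
      exact hT0 v)
    have hT2' : ∀ z, NY (T z) ^ p ≤ L ^ p * P z := by
      intro z
      rw [hP]
      simp only
      rw [← Real.mul_rpow hL (hG.nonneg _)]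
      exact Real.rpow_le_rpow (hY.nonneg _) (hT2 z) hp.le
    refine ⟨T, fun z => ?_, hT2⟩
    have h1 : ∀ ε > 0, NY (T (δ z) - f z) ^ p ≤ 2 * L ^ p * ε := by
      intro ε hε
      obtain ⟨v, hv⟩ := hdP z ε hε
      have e : T (j (dl β v)) = f (j v) := by
        rw [hT1, ext_dl β (f := fun v => f (j v)) (by rw [map_zero, hf0])]
      have h2 : T (δ z) - f z = T (δ z - j (dl β v)) + (f (j v) - f z) := by
        rw [map_sub, e]; abel
      rw [h2]
      refine (hYF.add_le _ _).trans ?_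
      have h3 := (hT2' (δ z - j (dl β v))).trans
        (mul_le_mul_of_nonneg_left (hδ z v) (Real.rpow_nonneg hL _))
      have h4 := hfP (j v) z
      have h5 : P (j v - z) = P (z - j v) := by
        rw [← hPF.neg]; congr 1; abel
      rw [h5] at h4
      have h6 : L ^ p * P (z - j v) ≤ L ^ p * ε :=
        mul_le_mul_of_nonneg_left hv.le (Real.rpow_nonneg hL _)
      linarith
    have h7 : NY (T (δ z) - f z) ^ p ≤ 0 := by
      refine le_of_forall_pos_le_add fun ε hε => ?_
      have hLp := Real.rpow_nonneg hL p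
      refine (h1 (ε / (2 * L ^ p + 1)) (by positivity)).trans ?_
      rw [zero_add, mul_div_assoc', div_le_iff₀ (by positivity)]
      nlinarith
    have h8 := le_antisymm h7 (Real.rpow_nonneg (hY.nonneg _) _)
    rw [Real.rpow_eq_zero (hY.nonneg _) hp.ne', hY.eq_zero_iff, sub_eq_zero] at h8
    exact h8
  -- the barycenter
  obtain ⟨b, hb1, hb2⟩ := hT G NG hG (fun z => z) 1 zero_le_one rfl (fun s t => by rw [one_mul])
  refine ⟨G, inferInstance, inferInstance, NG, δ, ?_, hG, hδ0, fun s t => ?_, ?_, ?_⟩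
  · -- nontrivial
    refine ⟨⟨j (Finsupp.single (i1 p) 1), 0, fun h => ?_⟩⟩
    have h1 := (hP0 _).2 h
    rw [hPj] at h1
    have h2 : |ell (Finsupp.single (i1 p) (1 : ℝ))| ^ p ≤ QQ β (Finsupp.single (i1 p) 1) :=
      le_QQ (fam_ell hp hp1 hβ) _
    have h3 : ell (Finsupp.single (i1 p) (1 : ℝ)) = 1 := ell_single _
    rw [h1, h3, abs_one, Real.one_rpow] at h2
    exact absurd h2 (by norm_num)
  · -- isometric
    apply le_antisymm
    · exact (Real.rpow_le_rpow_iff (hG.nonneg _) (hG.nonneg _) hp).1 (hup s t)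
    · have h1 := hb2 (δ s - δ t)
      rw [map_sub, hb1, hb1, one_mul] at h1
      exact h1
  · -- dense
    intro z ε hε
    obtain ⟨v, hv⟩ := hd z ε hε
    refine ⟨j v, ?_, hv⟩
    rw [← Finsupp.sum_single v, Finsupp.sum, map_sum]
    refine Submodule.sum_mem _ fun i _ => ?_
    have h1 : Finsupp.single i (v i) = v i • dl β (β.symm i).1 := by
      rw [dl_symm, Finsupp.smul_single, smul_eq_mul, mul_one]
    rw [h1, map_smul]
    exact Submodule.smul_mem _ _ (Submodule.subset_span ⟨j (β.symm i).1, hδj _⟩)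
  · -- universal
    intro Y _ _ NY hY f L hL hf0 hf
    obtain ⟨T, hT1, hT2⟩ := hT Y NY hY f L hL hf0 hf
    refine ⟨T, hT1, hT2, ?_⟩
    rintro T' ⟨C, hC⟩ hT'
    have hYF : IsPFK ℝ p (fun z => NY z ^ p) := isPFK_rpow' hY
    have hagree : ∀ v, T' (j v) = T (j v) := by
      intro v
      have : T'.comp j = T.comp j := by
        apply Finsupp.lhom_ext'
        intro i
        apply LinearMap.ext_ring
        simp only [LinearMap.comp_apply, Finsupp.lsingle_apply]
        rw [← dl_symm β i, ← hδj, hT', hT1]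
      exact LinearMap.congr_fun this v
    apply LinearMap.ext
    intro z
    have hC' : ∀ z, NY (T' z) ^ p ≤ (max C 0) ^ p * P z := by
      intro z
      rw [hP]
      simp only
      rw [← Real.mul_rpow (le_max_right _ _) (hG.nonneg _)]
      refine Real.rpow_le_rpow (hY.nonneg _) ((hC z).trans ?_) hp.le
      exact mul_le_mul_of_nonneg_right (le_max_left _ _) (hG.nonneg _)
    have hL' : ∀ z, NY (T z) ^ p ≤ L ^ p * P z := by
      intro z
      rw [hP]
      simp only
      rw [← Real.mul_rpow hL (hG.nonneg _)]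
      exact Real.rpow_le_rpow (hY.nonneg _) (hT2 z) hp.le
    have h1 : ∀ ε > 0, NY (T' z - T z) ^ p ≤ ((max C 0) ^ p + L ^ p) * ε := by
      intro ε hε
      obtain ⟨v, hv⟩ := hdP z ε hε
      have h2 : T' z - T z = T' (z - j v) - T (z - j v) := by
        rw [map_sub, map_sub, hagree]; abel
      rw [h2, add_mul]
      refine (hYF.sub_le _ _).trans (add_le_add ?_ ?_)
      · exact (hC' _).trans (mul_le_mul_of_nonneg_left hv.le
          (Real.rpow_nonneg (le_max_right _ _) _))
      · exact (hL' _).trans (mul_le_mul_of_nonneg_left hv.le (Real.rpow_nonneg hL _))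
    have h7 : NY (T' z - T z) ^ p ≤ 0 := by
      refine le_of_forall_pos_le_add fun ε hε => ?_
      set K := (max C 0) ^ p + L ^ p with hK
      have hK0 : 0 ≤ K :=
        add_nonneg (Real.rpow_nonneg (le_max_right _ _) _) (Real.rpow_nonneg hL _)
      refine (h1 (ε / (K + 1)) (by positivity)).trans ?_
      rw [zero_add, mul_div_assoc', div_le_iff₀ (by positivity)]
      nlinarith
    have h8 := le_antisymm h7 (Real.rpow_nonneg (hY.nonneg _) _)
    rw [Real.rpow_eq_zero (hY.nonneg _) hp.ne', hY.eq_zero_iff, sub_eq_zero] at h8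
    exact h8

/-- free `p`-spaces over the same `p`-metric space are isometrically isomorphic -/
theorem unique {M : Type} {d : M → M → ℝ} {o : M} {F F' : Type} [AddCommGroup F] [Module ℝ F]
    [AddCommGroup F'] [Module ℝ F'] {NF : F → ℝ} {NF' : F' → ℝ} {δ : M → F} {δ' : M → F'}
    (h : IsFreeP p M d o F NF δ) (h' : IsFreeP p M d o F' NF' δ') :
    ∃ e : F ≃ₗ[ℝ] F', ∀ z, NF' (e z) = NF z := by
  obtain ⟨T, hT1, hT2, -⟩ := h.universal F' NF' h'.pbanach δ' 1 zero_le_one h'.base
    (fun s t => by rw [h'.isometric, one_mul])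
  obtain ⟨S, hS1, hS2, -⟩ := h'.universal F NF h.pbanach δ 1 zero_le_one h.base
    (fun s t => by rw [h.isometric, one_mul])
  simp only [one_mul] at hT2 hS2
  have hST : S.comp T = LinearMap.id := by
    obtain ⟨U, -, -, hU⟩ := h.universal F NF h.pbanach δ 1 zero_le_one h.base
      (fun s t => by rw [h.isometric, one_mul])
    rw [hU (S.comp T) ⟨1, fun z => by
        rw [one_mul]; exact (hS2 _).trans (hT2 _)⟩ (fun s => by
        rw [LinearMap.comp_apply, hT1, hS1]),
      hU LinearMap.id ⟨1, fun z => by rw [one_mul]; rfl⟩ (fun s => rfl)]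
  have hTS : T.comp S = LinearMap.id := by
    obtain ⟨U, -, -, hU⟩ := h'.universal F' NF' h'.pbanach δ' 1 zero_le_one h'.base
      (fun s t => by rw [h'.isometric, one_mul])
    rw [hU (T.comp S) ⟨1, fun z => by
        rw [one_mul]; exact (hT2 _).trans (hS2 _)⟩ (fun s => by
        rw [LinearMap.comp_apply, hS1, hT1]),
      hU LinearMap.id ⟨1, fun z => by rw [one_mul]; rfl⟩ (fun s => rfl)]
  refine ⟨LinearEquiv.ofLinear T S hTS hST, fun z => le_antisymm (hT2 z) ?_⟩
  have h1 := hS2 (T z)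
  have h2 : S (T z) = z := LinearMap.congr_fun hST z
  rwa [h2] at h1

/-- **A `p`-Banach space isometric to its own Lipschitz free `p`-space.**  For `0 < p ≤ 1` there are
a nonzero `p`-Banach space `X` and a map `δ : X → X` such that `(X, δ)` is the Lipschitz free
`p`-space over `X` (with the `p`-metric `N (x - y)` and base point `0`); and every Lipschitz free
`p`-space over `X` is linearly isometric to `X`. -/
theorem result (p : ℝ) (hp : 0 < p) (hp1 : p ≤ 1) :
    ∃ (X : Type) (_ : AddCommGroup X) (_ : Module ℝ X) (N : X → ℝ), IsPBanach ℝ p X N ∧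
      Nontrivial X ∧
      (∃ δ : X → X, IsFreeP p X (fun x y => N (x - y)) 0 X N δ) ∧
      ∀ (F : Type) (_ : AddCommGroup F) (_ : Module ℝ F) (NF : F → ℝ) (δ : X → F),
        IsFreeP p X (fun x y => N (x - y)) 0 F NF δ →
          ∃ e : F ≃ₗ[ℝ] X, ∀ z, N (e z) = NF z := by
  obtain ⟨X, i1, i2, N, δ, hX, h⟩ := main hp hp1
  exact ⟨X, i1, i2, N, h.pbanach, hX, ⟨δ, h⟩, fun F _ _ NF δ' h' => unique h' h⟩

end completion

end Pool.Agent.Results.MP_fdacb0_an.SelfFree
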